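import Pool.Agent.Lib.MP_0775d3_lc.U.Defs

/-! The class of groups is closed under products with abelian groups. -/

set_option linter.unusedSectionVars false

namespace MP0775d3.U

open Matrix MP0775d3.Kron MP0775d3.Sl2

/-- `E × (T × H) ≃* T × (E × H)` -/
private def ab_swap (E T H : Type) [Group E] [Group T] [Group H] :
    E × (T × H) ≃* T × (E × H) where
  toFun x := (x.2.1, (x.1, x.2.2))
  invFun x := (x.2.1, (x.1, x.2.2))
  left_inv _ := rfl
  right_inv _ := rfl
  map_mul' _ _ := rfl

private theorem ab_zero {l : ℕ} (hl : 1 ≤ l) (E : Type) [CommGroup E] (G : Type) [Group G]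
    (h : derivedSeries G l = ⊥) : derivedSeries (E × G) l = ⊥ := by
  rw [eq_bot_iff]
  intro x hx
  have h1 : (MonoidHom.fst E G) x ∈ derivedSeries E l :=
    map_derivedSeries_le_derivedSeries (MonoidHom.fst E G) l (Subgroup.mem_map_of_mem _ hx)
  have h2 : (MonoidHom.snd E G) x ∈ derivedSeries G l :=
    map_derivedSeries_le_derivedSeries (MonoidHom.snd E G) l (Subgroup.mem_map_of_mem _ hx)
  rw [h, Subgroup.mem_bot] at h2
  have h3 : derivedSeries E l = ⊥ := by
    obtain ⟨m, rfl⟩ : ∃ m, l = m + 1 := ⟨l - 1, by omega⟩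
    rw [derivedSeries_succ, eq_bot_iff, Subgroup.commutator_le]
    intro a _ b _
    rw [Subgroup.mem_bot, commutatorElement_eq_one_iff_mul_comm]
    exact mul_comm a b
  rw [h3, Subgroup.mem_bot] at h1
  rw [Subgroup.mem_bot]
  exact Prod.ext h1 h2

/-- PROOF. Induction on `r`. `r = 0`: `derivedSeries (E × G) l` is contained in the product of the
derived series (`map_derivedSeries_le_derivedSeries` for the two projections), `l ≥ 1` and `E` is
abelian. Step: `E × (T × H) ≃* T × (E × H)`. -/
theorem InS.ab {l r : ℕ} (hl : 1 ≤ l) (E : Type) [CommGroup E] (G : Type) [Group G]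
    (h : InS l r G) : InS l r (E × G) := by
  induction r generalizing G with
  | zero => exact ab_zero hl E G h
  | succ r ih =>
    obtain ⟨T, H, iT, iH, hT, hH, ⟨e⟩⟩ := h
    exact ⟨T, E × H, iT, inferInstance, hT, ih H hH,
      ⟨(MulEquiv.prodCongr (MulEquiv.refl E) e).trans (ab_swap E T H)⟩⟩

end MP0775d3.U
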