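import Pool.Agent.Lib.MP_0775d3_lc.Sl2.Statement

/-! The class of groups of the theorem. -/

set_option linter.unusedSectionVars false

namespace MP0775d3.U

open Matrix MP0775d3.Kron MP0775d3.Sl2

/-- Direct products of a solvable group of derived length at most `l` and of `r` groups of `SL₂`
type. -/
def InS (l : ℕ) : ℕ → (G : Type) → [Group G] → Prop
  | 0, G, _ => derivedSeries G l = ⊥
  | r + 1, G, _ => ∃ (T H : Type) (_ : Group T) (_ : Group H),
      IsSL2Type T ∧ InS l r H ∧ Nonempty (G ≃* T × H)

/-- Direct products of any number of groups of order at most `l` and of a group in `InS l l`. -/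
def InU (l : ℕ) (G : Type) [Group G] : Prop :=
  ∃ (ι : Type) (_ : Finite ι) (P : ι → Type) (_ : ∀ i, Group (P i)) (H : Type) (_ : Group H),
    (∀ i, Finite (P i) ∧ Nat.card (P i) ≤ l) ∧ InS l l H ∧ Nonempty (G ≃* (∀ i, P i) × H)

end MP0775d3.U
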