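import Pool.Agent.Lib.MP_0775d3_lc.U.MainS
import Pool.Agent.Lib.MP_0775d3_lc.Bd.PeelBd

/-! The theorem. -/

set_option linter.unusedSectionVars false

namespace MP0775d3.U

open Matrix MP0775d3.Kron MP0775d3.Sl2 MP0775d3.Sl2H

/-- The derived length may be increased. -/
private theorem inS_succ (l : ℕ) (r : ℕ) : ∀ (G : Type) [Group G], InS l r G → InS (l + 1) r G := by
  induction r with
  | zero =>
    intro G _ h
    have h' : derivedSeries G l = ⊥ := h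
    show derivedSeries G (l + 1) = ⊥
    exact le_bot_iff.1 (h' ▸ derivedSeries_antitone (G := G) (Nat.le_succ l))
  | succ r ih =>
    intro G _ h
    obtain ⟨T, H, _, _, hT, hH, he⟩ := h
    exact ⟨T, H, inferInstance, inferInstance, hT, ih H hH, he⟩

/-- The numerical estimates. -/
private theorem final_num {n h N γ₁ γ₂ κ C₁ C₂ γ : ℝ} (hN : 1 ≤ N) (hnh : n * h = N)
    (hγ₁κ : κ ≤ γ₁ / 2) (hn : 0 < n) (hh : 0 ≤ h) (hC₁ : 1 ≤ C₁) (hC₂ : 1 ≤ C₂)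
    (hγ : γ ≤ κ * γ₂) (hγ' : γ ≤ γ₁ / 2) (hγ₂ : 0 < γ₂) (hκ : 0 < κ) :
    (n ≤ N ^ κ → n * n * h * (C₁ * N ^ (-γ₁)) ≤ C₂ * (1 + C₁) * N ^ (1 - γ)) ∧
    (N ^ κ < n → C₂ * (n * h * (n ^ (-γ₂) + C₁ * N ^ (-γ₁))) ≤ C₂ * (1 + C₁) * N ^ (1 - γ)) := by
  have hN0 : 0 < N := by linarith
  have hNg : N ^ (1 - γ) = N * N ^ (-γ) := by
    rw [sub_eq_add_neg, Real.rpow_add hN0, Real.rpow_one]
  have hg0 : 0 < N ^ (-γ) := Real.rpow_pos_of_pos hN0 _
  constructor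
  · intro hle
    have h1 : N ^ κ * N ^ (-γ₁) ≤ N ^ (-γ) := by
      rw [← Real.rpow_add hN0]
      exact Real.rpow_le_rpow_of_exponent_le hN (by linarith)
    have h2 : n * N ^ (-γ₁) ≤ N ^ (-γ) :=
      (mul_le_mul_of_nonneg_right hle (Real.rpow_nonneg hN0.le _)).trans h1
    calc n * n * h * (C₁ * N ^ (-γ₁)) = N * C₁ * (n * N ^ (-γ₁)) := by rw [← hnh]; ring
      _ ≤ N * C₁ * N ^ (-γ) := mul_le_mul_of_nonneg_left h2 (by positivity)
      _ = C₁ * (N * N ^ (-γ)) := by ring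
      _ ≤ C₂ * (1 + C₁) * (N * N ^ (-γ)) :=
          mul_le_mul_of_nonneg_right (by nlinarith) (by positivity)
      _ = _ := by rw [hNg]
  · intro hlt
    have h1 : n ^ (-γ₂) ≤ N ^ (-γ) := by
      have e1 : n ^ (-γ₂) ≤ (N ^ κ) ^ (-γ₂) :=
        Real.rpow_le_rpow_of_nonpos (Real.rpow_pos_of_pos hN0 _) hlt.le (by linarith)
      rw [← Real.rpow_mul hN0.le] at e1
      exact e1.trans (Real.rpow_le_rpow_of_exponent_le hN (by linarith))
    have h2 : N ^ (-γ₁) ≤ N ^ (-γ) :=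
      Real.rpow_le_rpow_of_exponent_le hN (by linarith [mul_pos hκ hγ₂])
    have h3 : n ^ (-γ₂) + C₁ * N ^ (-γ₁) ≤ (1 + C₁) * N ^ (-γ) := by
      have := mul_le_mul_of_nonneg_left h2 (by linarith : (0 : ℝ) ≤ C₁)
      linarith
    calc C₂ * (n * h * (n ^ (-γ₂) + C₁ * N ^ (-γ₁)))
        ≤ C₂ * (n * h * ((1 + C₁) * N ^ (-γ))) := by gcongr
      _ = C₂ * (1 + C₁) * (N * N ^ (-γ)) := by rw [hnh]; ring
      _ = _ := by rw [hNg]

/-- PROOF. As the step of `main_S`, with `peel_bd l` for the product of the `P i` in place of `peel`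
(no `AbBound` needed), `N = |G|`; `InS l l` implies `InS (l + 1) l` for the case `l = 0`
(`derivedSeries_antitone`). -/
theorem main_U (l : ℕ) (δ : ℝ) (hδ : 0 < δ) (hδ1 : δ ≤ 1) : ∃ γ : ℝ, 0 < γ ∧ γ ≤ 1 ∧
    ∃ C : ℝ, 1 ≤ C ∧ ∀ (G : Type) [Group G] [Finite G], InU l G →
      GBound G (C * (Nat.card G : ℝ) ^ (1 - γ)) (C * (Nat.card G : ℝ) ^ δ) := by
  obtain ⟨γ₁, hγ₁, hγ₁1, C₁, hC₁, h₁⟩ := main_S (l + 1) (by omega) l (δ / 2) (by linarith)
    (by linarith)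
  obtain ⟨γ₂, hγ₂, hγ₂1, C₂, hC₂, h₂⟩ := MP0775d3.Bd.peel_bd l (δ / 2) (by linarith) (by linarith)
  set κ : ℝ := min (γ₁ / 2) (δ / 2) with hκdef
  have hκ : 0 < κ := lt_min (by linarith) (by linarith)
  have hκ1 : κ ≤ γ₁ / 2 := min_le_left _ _
  have hκ2 : κ ≤ δ / 2 := min_le_right _ _
  set γ : ℝ := min (κ * γ₂) (γ₁ / 2) with hγdef
  have hγ : 0 < γ := lt_min (mul_pos hκ hγ₂) (by linarith)
  have hγa : γ ≤ κ * γ₂ := min_le_left _ _
  have hγb : γ ≤ γ₁ / 2 := min_le_right _ _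
  have hC : 1 ≤ C₂ * (1 + C₁) := by nlinarith
  refine ⟨γ, hγ, by linarith, C₂ * (1 + C₁), hC, ?_⟩
  intro G _ _ hG
  obtain ⟨ι, _, P, _, H, _, hP, hH, ⟨e⟩⟩ := hG
  have hPf : ∀ i, Finite (P i) := fun i => (hP i).1
  have hHf : Finite H := by
    have : Finite ((∀ i, P i) × H) := Finite.of_equiv G e.toEquiv
    exact Finite.of_surjective (Prod.snd : (∀ i, P i) × H → H) Prod.snd_surjective
  have hcard : (Nat.card (∀ i, P i) : ℝ) * (Nat.card H : ℝ) = (Nat.card G : ℝ) := by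
    rw [Nat.card_congr e.toEquiv, Nat.card_prod]
    push_cast
    ring
  have hN : (1 : ℝ) ≤ Nat.card G := by
    have : 0 < Nat.card G := Nat.card_pos
    exact_mod_cast this
  have hn : (1 : ℝ) ≤ Nat.card (∀ i, P i) := by
    have : 0 < Nat.card (∀ i, P i) := Nat.card_pos
    exact_mod_cast this
  have hh : (1 : ℝ) ≤ Nat.card H := by
    have : 0 < Nat.card H := Nat.card_pos
    exact_mod_cast this
  set N : ℝ := (Nat.card G : ℝ) with hNdef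
  have hHN : (Nat.card H : ℝ) ≤ N := by
    rw [← hcard]
    exact le_mul_of_one_le_left (by linarith) hn
  have hN0 : 0 < N := by linarith
  have hnn : (Nat.card (∀ i, P i) : ℝ) ≤ N := by
    rw [← hcard]
    exact le_mul_of_one_le_right (by linarith) hh
  have hHb : GBound H (Nat.card H * (C₁ * N ^ (-γ₁))) (C₁ * N ^ (δ / 2)) := by
    intro _ f hf
    exact h₁ N hN H (inS_succ l l H hH) hHN f hf
  have hρ : 0 ≤ C₁ * N ^ (-γ₁) := mul_nonneg (by linarith) (Real.rpow_nonneg hN0.le _)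
  have hτ : 0 ≤ C₁ * N ^ (δ / 2) := mul_nonneg (by linarith) (Real.rpow_nonneg hN0.le _)
  have hNδ : N ^ (δ / 2) * N ^ (δ / 2) = N ^ δ := by
    rw [← Real.rpow_add hN0]
    congr 1
    ring
  obtain ⟨hnum1, hnum2⟩ := final_num (γ₂ := γ₂) (κ := κ) (γ := γ) (C₂ := C₂) hN hcard hκ1
    (by linarith) (by linarith) hC₁ hC₂ hγa hγb hγ₂ hκ
  have hδ0 : 0 ≤ N ^ δ := Real.rpow_nonneg hN0.le _
  have hδ2 : 0 ≤ N ^ (δ / 2) := Real.rpow_nonneg hN0.le _
  suffices hmain : GBound ((∀ i, P i) × H) (C₂ * (1 + C₁) * N ^ (1 - γ))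
      (C₂ * (1 + C₁) * N ^ δ) by
    intro _ f hf
    exact GBound.congr e.symm hmain f hf
  rcases le_or_gt (Nat.card (∀ i, P i) : ℝ) (N ^ κ) with hle | hgt
  · intro _ f hf
    refine (peel_small (T := ∀ i, P i) hρ hτ hHb f hf).mono (hnum1 hle) ?_
    have h4 : (Nat.card (∀ i, P i) : ℝ) ≤ N ^ (δ / 2) :=
      hle.trans (Real.rpow_le_rpow_of_exponent_le hN hκ2)
    calc (Nat.card (∀ i, P i) : ℝ) * (C₁ * N ^ (δ / 2))
        ≤ N ^ (δ / 2) * (C₁ * N ^ (δ / 2)) := mul_le_mul_of_nonneg_right h4 hτ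
      _ = C₁ * (N ^ (δ / 2) * N ^ (δ / 2)) := by ring
      _ = C₁ * N ^ δ := by rw [hNδ]
      _ ≤ C₂ * (1 + C₁) * N ^ δ := mul_le_mul_of_nonneg_right (by nlinarith) hδ0
  · intro _ f hf
    refine (h₂ ι P (fun i => (hP i).2) H (C₁ * N ^ (-γ₁)) (C₁ * N ^ (δ / 2)) hρ hτ hHb f hf).mono
      (hnum2 hgt) ?_
    have h4 : (Nat.card (∀ i, P i) : ℝ) ^ (δ / 2) ≤ N ^ (δ / 2) :=
      Real.rpow_le_rpow (by linarith) hnn (by linarith)
    calc C₂ * ((Nat.card (∀ i, P i) : ℝ) ^ (δ / 2) * (C₁ * N ^ (δ / 2)))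
        ≤ C₂ * (N ^ (δ / 2) * (C₁ * N ^ (δ / 2))) := by gcongr
      _ = C₂ * C₁ * (N ^ (δ / 2) * N ^ (δ / 2)) := by ring
      _ = C₂ * C₁ * N ^ δ := by rw [hNδ]
      _ ≤ C₂ * (1 + C₁) * N ^ δ := mul_le_mul_of_nonneg_right (by nlinarith) hδ0

/-- PROOF. `main_U` for `min (δ / 2) 1`, `RDec.dec`, and `dec_rclike` of `Sl2/Real.lean`: follow
`main_rclike`. -/
theorem main_final (l : ℕ) (δ : ℝ) (hδ : 0 < δ) : ∃ γ : ℝ, 0 < γ ∧ ∃ n₀ : ℕ,
    ∀ (G : Type) [Group G] [Fintype G], InU l G → n₀ ≤ Fintype.card G →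
    ∀ (F : Type) [RCLike F] (f : G → F), IsClassFun f →
      Dec (groupMat f) ((Fintype.card G : ℝ) ^ (1 - γ)) ((Fintype.card G : ℝ) ^ δ) := by
  classical
  have hδ' : 0 < min (δ / 2) 1 := lt_min (by linarith) one_pos
  obtain ⟨γ, hγ, hγ1, C, hC, h₁⟩ := main_U l (min (δ / 2) 1) hδ' (min_le_right _ _)
  have ev1 : ∀ᶠ x : ℝ in Filter.atTop, 2 * C ≤ x ^ (γ / 2) :=
    (tendsto_rpow_atTop (by positivity)).eventually_ge_atTop _
  have ev2 : ∀ᶠ x : ℝ in Filter.atTop, C ≤ x ^ (δ / 2) :=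
    (tendsto_rpow_atTop (by positivity)).eventually_ge_atTop _
  obtain ⟨n₀, hn₀⟩ := (tendsto_natCast_atTop_atTop.eventually (ev1.and ev2)).exists_forall_of_atTop
  refine ⟨γ / 2, by positivity, max n₀ 1, ?_⟩
  intro G _ _ hG hn F _ f hf
  obtain ⟨hA1, hA2⟩ := hn₀ (Fintype.card G) ((le_max_left _ _).trans hn)
  have hn1 : (1 : ℝ) ≤ Fintype.card G := by exact_mod_cast (le_max_right n₀ 1).trans hn
  set n : ℝ := (Fintype.card G : ℝ) with hndef
  have hn0 : 0 < n := by linarith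
  have key := h₁ G hG
    (fun g => ((RCLike.re (f g) : ℝ) : ℂ) + ((RCLike.im (f g) : ℝ) : ℂ) * Complex.I)
    (fun g x => by
      have := hf g x
      simp only [this])
  have hNc : (Nat.card G : ℝ) = n := by rw [hndef, Nat.card_eq_fintype_card]
  rw [hNc] at key
  have h3 : Dec ((groupMat f).map fun z =>
      ((RCLike.re z : ℝ) : ℂ) + ((RCLike.im z : ℝ) : ℂ) * Complex.I) (C * n ^ (1 - γ))
      (C * n ^ min (δ / 2) 1) := RDec.dec key
  refine (dec_rclike _ (by positivity) h3).mono ?_ ?_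
  · calc 2 * (C * n ^ (1 - γ)) = 2 * C * n ^ (1 - γ) := by ring
      _ ≤ n ^ (γ / 2) * n ^ (1 - γ) := mul_le_mul_of_nonneg_right hA1 (by positivity)
      _ = n ^ (1 - γ / 2) := by
          rw [← Real.rpow_add hn0]
          congr 1
          ring
  · calc C * n ^ min (δ / 2) 1 ≤ n ^ (δ / 2) * n ^ (δ / 2) := by
          refine mul_le_mul hA2 ?_ (by positivity) (by positivity)
          exact Real.rpow_le_rpow_of_exponent_le hn1 (min_le_left _ _)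
      _ = n ^ δ := by
          rw [← Real.rpow_add hn0]
          congr 1
          ring

end MP0775d3.U
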