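import Pool.Agent.Lib.MP_0775d3_lc.U.MainS
import Pool.Agent.Lib.MP_0775d3_lc.Bd.PeelEta
import Pool.Agent.Lib.MP_0775d3_lc.Sl2.Real

/-! The theorem with factors of order at most `n ^ η`. -/

set_option linter.unusedSectionVars false

namespace MP0775d3.U

open Matrix MP0775d3.Kron MP0775d3.Sl2 MP0775d3.Sl2H MP0775d3.Bd

/-- `G` is a finite direct product of groups of order at most `b`. -/
def IsSmallProd (b : ℝ) (G : Type) [Group G] : Prop :=
  ∃ (ι : Type) (_ : Finite ι) (P : ι → Type) (_ : ∀ i, Group (P i)),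
    (∀ i, Finite (P i) ∧ (Nat.card (P i) : ℝ) ≤ b) ∧ Nonempty (G ≃* ∀ i, P i)

/-- `G` is a direct product of `l` groups of `SL₂` type. -/
def IsSL2Prod (l : ℕ) (G : Type) [Group G] : Prop :=
  ∃ (T : Fin l → Type) (_ : ∀ j, Group (T j)),
    (∀ j, IsSL2Type (T j)) ∧ Nonempty (G ≃* ∀ j, T j)

/-- `G ≅ P × T × S`: `P` a product of groups of order at most `b`, `T` a product of `l` groups of
`SL₂` type, `S` solvable of derived length at most `l`. -/
def InClass (l : ℕ) (b : ℝ) (G : Type) [Group G] : Prop :=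
  ∃ (P T S : Type) (_ : Group P) (_ : Group T) (_ : Group S),
    IsSmallProd b P ∧ IsSL2Prod l T ∧ derivedSeries S l = ⊥ ∧ Nonempty (G ≃* P × T × S)

theorem InS.congr {l : ℕ} : ∀ {r : ℕ} {G G' : Type} [Group G] [Group G'], (G ≃* G') →
    InS l r G → InS l r G'
  | 0, G, G', _, _, e, h => by
    have h' : derivedSeries G l = ⊥ := h
    show derivedSeries G' l = ⊥
    rw [← map_derivedSeries_eq (f := e.toMonoidHom) e.surjective l, h', Subgroup.map_bot]
  | r + 1, G, G', _, _, e, h => by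
    obtain ⟨T, H, _, _, hT, hH, ⟨e'⟩⟩ := h
    exact ⟨T, H, _, _, hT, hH, ⟨e.symm.trans e'⟩⟩

theorem inS_of_pi (l : ℕ) (S : Type) [Group S] (hS : derivedSeries S l = ⊥) (r : ℕ) :
    ∀ (T : Fin r → Type) [∀ j, Group (T j)], (∀ j, IsSL2Type (T j)) →
      InS l r ((∀ j, T j) × S) := by
  induction r with
  | zero =>
    intro T _ _
    have e : S ≃* ((∀ j, T j) × S) :=
      { toFun := fun s => (fun j => j.elim0, s)
        invFun := fun p => p.2
        left_inv := fun s => rfl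
        right_inv := fun p => Prod.ext (funext fun j => j.elim0) rfl
        map_mul' := fun a b => Prod.ext (funext fun j => j.elim0) rfl }
    exact InS.congr e hS
  | succ r ih =>
    intro T _ hT
    refine ⟨T 0, (∀ j : Fin r, T j.succ) × S, inferInstance, inferInstance, hT 0,
      ih (fun j => T j.succ) (fun j => hT j.succ), ⟨?_⟩⟩
    exact
      { toFun := fun p => (p.1 0, (fun j => p.1 j.succ, p.2))
        invFun := fun p => (Fin.cons p.1 p.2.1, p.2.2)
        left_inv := fun p => by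
          refine Prod.ext ?_ rfl
          funext j
          refine Fin.cases ?_ (fun i => ?_) j <;> simp
        right_inv := fun p => by simp
        map_mul' := fun a b => rfl }

/-- One step further in the derived series. -/
theorem derived_succ {S : Type} [Group S] {l : ℕ} (hS : derivedSeries S l = ⊥) :
    derivedSeries S (l + 1) = ⊥ :=
  le_bot_iff.mp ((derivedSeries_antitone S (Nat.le_succ l)).trans hS.le)

theorem main_eta (δ : ℝ) (hδ : 0 < δ) (hδ1 : δ ≤ 1) : ∃ c : ℝ, 0 < c ∧ ∀ l : ℕ,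
    ∃ γ : ℝ, 0 < γ ∧ ∃ C : ℝ, 1 ≤ C ∧ ∀ (G : Type) [Group G] [Finite G] (η : ℝ), 0 < η →
      1 < Nat.card G → InClass l ((Nat.card G : ℝ) ^ η) G →
      GBound G (Nat.card G * (256 * Real.exp (-(c / η)) + C * (Nat.card G : ℝ) ^ (-γ)))
        (C * (Nat.card G : ℝ) ^ δ) := by
  obtain ⟨c, hc, hpeel⟩ := peel_eta (δ / 2) (by linarith) (by linarith)
  refine ⟨c, hc, ?_⟩
  intro l
  obtain ⟨γ, hγ, _, C, hC, hS⟩ := main_S (l + 1) (Nat.le_add_left 1 l) l (δ / 2) (by linarith)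
    (by linarith)
  refine ⟨γ, hγ, C, hC, ?_⟩
  intro G _ _ η hη hG1 hG
  obtain ⟨P, T, S, _, _, _, ⟨ι, hι, P', _, hP', ⟨eP⟩⟩, ⟨T', _, hT', ⟨eT⟩⟩, hS', ⟨e⟩⟩ := hG
  have e' : G ≃* (∀ i, P' i) × ((∀ j, T' j) × S) :=
    e.trans (MulEquiv.prodCongr eP (MulEquiv.prodCongr eT (MulEquiv.refl S)))
  have hfin : Finite ((∀ i, P' i) × ((∀ j, T' j) × S)) := Finite.of_equiv G e'.toEquiv
  have hf1 : Finite (∀ i, P' i) := Finite.of_surjective
    (Prod.fst : (∀ i, P' i) × ((∀ j, T' j) × S) → _) Prod.fst_surjective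
  have hf2 : Finite ((∀ j, T' j) × S) := Finite.of_surjective
    (Prod.snd : (∀ i, P' i) × ((∀ j, T' j) × S) → _) Prod.snd_surjective
  have hfP : ∀ i, Finite (P' i) := fun i => (hP' i).1
  set N : ℝ := (Nat.card G : ℝ) with hN
  have hcN : N = Nat.card (∀ i, P' i) * Nat.card ((∀ j, T' j) × S) := by
    rw [hN, Nat.card_congr e'.toEquiv, Nat.card_prod]
    push_cast
    ring
  have h1 : (1 : ℝ) ≤ Nat.card (∀ i, P' i) := by exact_mod_cast Nat.card_pos
  have h2 : (1 : ℝ) ≤ Nat.card ((∀ j, T' j) × S) := by exact_mod_cast Nat.card_pos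
  have hN1 : 1 < N := by rw [hN]; exact_mod_cast hG1
  have hN0 : 0 < N := by linarith
  have hPN : (Nat.card (∀ i, P' i) : ℝ) ≤ N := by rw [hcN]; nlinarith
  have hHN : (Nat.card ((∀ j, T' j) × S) : ℝ) ≤ N := by rw [hcN]; nlinarith
  have hH : GBound ((∀ j, T' j) × S) (Nat.card ((∀ j, T' j) × S) * (C * N ^ (-γ)))
      (C * N ^ (δ / 2)) :=
    hS N hN1.le _ (inS_of_pi (l + 1) S (derived_succ hS') l T' hT') hHN
  have hfinal : GBound G (Nat.card (∀ i, P' i) * Nat.card ((∀ j, T' j) × S) *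
      (256 * Real.exp (-(c / η)) + C * N ^ (-γ))) (N ^ (δ / 2) * (C * N ^ (δ / 2))) := by
    refine GBound.congr e'.symm ?_
    exact hpeel η hη N hN1 ι P' (fun i => (hP' i).2) hPN ((∀ j, T' j) × S)
      (C * N ^ (-γ)) (C * N ^ (δ / 2)) (by positivity) (by positivity) hH
  intro _ f hf
  refine (hfinal f hf).mono (le_of_eq ?_) (le_of_eq ?_)
  · rw [← hcN]
  · have e4 : N ^ δ = N ^ (δ / 2) * N ^ (δ / 2) := by
      rw [← Real.rpow_add hN0]
      congr 1
      ring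
    rw [e4]
    ring

theorem main_class (δ : ℝ) (hδ : 0 < δ) : ∃ c : ℝ, 0 < c ∧ ∀ l : ℕ, ∃ γ : ℝ, 0 < γ ∧ ∃ n₀ : ℕ,
    ∀ (G : Type) [Group G] [Fintype G] (η : ℝ), 0 < η →
    InClass l ((Fintype.card G : ℝ) ^ η) G → n₀ ≤ Fintype.card G →
    ∀ (F : Type) [RCLike F] (f : G → F), IsClassFun f →
      Dec (groupMat f)
        (Fintype.card G * (512 * Real.exp (-(c / η)) + (Fintype.card G : ℝ) ^ (-γ)))
        ((Fintype.card G : ℝ) ^ δ) := by
  classical
  set δ' : ℝ := min (δ / 2) 1 with hδ'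
  have hδ'0 : 0 < δ' := lt_min (by linarith) one_pos
  have hδ'1 : δ' ≤ 1 := min_le_right _ _
  have hδ'2 : δ' ≤ δ / 2 := min_le_left _ _
  obtain ⟨c, hc, h⟩ := main_eta δ' hδ'0 hδ'1
  refine ⟨c, hc, ?_⟩
  intro l
  obtain ⟨γ, hγ, C, hC, h⟩ := h l
  obtain ⟨n₁, hn₁⟩ : ∃ n₁ : ℕ, (2 * C) ^ (2 / γ) ≤ n₁ := exists_nat_ge _
  obtain ⟨n₂, hn₂⟩ : ∃ n₂ : ℕ, C ^ (2 / δ) ≤ n₂ := exists_nat_ge _
  refine ⟨γ / 2, by positivity, max n₁ (max n₂ 2), ?_⟩
  intro G _ _ η hη hG hn F _ f hf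
  have hn1 : n₁ ≤ Fintype.card G := (le_max_left _ _).trans hn
  have hn2 : n₂ ≤ Fintype.card G := (le_max_left _ _).trans ((le_max_right _ _).trans hn)
  have hn3 : 2 ≤ Fintype.card G := (le_max_right _ _).trans ((le_max_right _ _).trans hn)
  have hcard : Nat.card G = Fintype.card G := Nat.card_eq_fintype_card
  set n : ℝ := (Fintype.card G : ℝ) with hndef
  have hn0 : 1 < n := by
    rw [hndef]
    have : (2 : ℝ) ≤ (Fintype.card G : ℝ) := by exact_mod_cast hn3
    linarith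
  have hn00 : 0 < n := by linarith
  have hC0 : 0 < C := by linarith
  have h2 : 2 * C ≤ n ^ (γ / 2) := by
    have h3 : (2 * C) ^ (2 / γ) ≤ n := hn₁.trans (by rw [hndef]; exact_mod_cast hn1)
    have h4 : ((2 * C) ^ (2 / γ)) ^ (γ / 2) ≤ n ^ (γ / 2) :=
      Real.rpow_le_rpow (by positivity) h3 (by positivity)
    rw [← Real.rpow_mul (by positivity)] at h4
    have h5 : 2 / γ * (γ / 2) = 1 := by field_simp
    rwa [h5, Real.rpow_one] at h4
  have h2' : C ≤ n ^ (δ / 2) := by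
    have h3 : C ^ (2 / δ) ≤ n := hn₂.trans (by rw [hndef]; exact_mod_cast hn2)
    have h4 : (C ^ (2 / δ)) ^ (δ / 2) ≤ n ^ (δ / 2) :=
      Real.rpow_le_rpow (by positivity) h3 (by positivity)
    rw [← Real.rpow_mul (by positivity)] at h4
    have h5 : 2 / δ * (δ / 2) = 1 := by field_simp
    rwa [h5, Real.rpow_one] at h4
  have hb := h G η hη (by rw [hcard]; omega) (by rw [hcard]; exact hG)
  have key := (hb (fun g => ((RCLike.re (f g) : ℝ) : ℂ) + ((RCLike.im (f g) : ℝ) : ℂ) * Complex.I)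
    (fun g x => by simp only [hf g x])).dec
  rw [hcard] at key
  have h3 : Dec ((groupMat f).map fun z =>
      ((RCLike.re z : ℝ) : ℂ) + ((RCLike.im z : ℝ) : ℂ) * Complex.I)
      (n * (256 * Real.exp (-(c / η)) + C * n ^ (-γ))) (C * n ^ δ') := key
  refine (dec_rclike _ (by positivity) h3).mono ?_ ?_
  · have h6 : 2 * (C * n ^ (-γ)) ≤ n ^ (-(γ / 2)) := by
      calc 2 * (C * n ^ (-γ)) = 2 * C * n ^ (-γ) := by ring
        _ ≤ n ^ (γ / 2) * n ^ (-γ) := mul_le_mul_of_nonneg_right h2 (by positivity)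
        _ = n ^ (-(γ / 2)) := by
          rw [← Real.rpow_add hn00]
          congr 1
          ring
    calc 2 * (n * (256 * Real.exp (-(c / η)) + C * n ^ (-γ)))
        = n * (512 * Real.exp (-(c / η)) + 2 * (C * n ^ (-γ))) := by ring
      _ ≤ n * (512 * Real.exp (-(c / η)) + n ^ (-(γ / 2))) :=
        mul_le_mul_of_nonneg_left (by linarith) hn00.le
  · calc C * n ^ δ' ≤ n ^ (δ / 2) * n ^ (δ / 2) :=
        mul_le_mul h2' (Real.rpow_le_rpow_of_exponent_le hn0.le hδ'2) (by positivity)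
          (by positivity)
      _ = n ^ δ := by
        rw [← Real.rpow_add hn00]
        congr 1
        ring

end MP0775d3.U
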