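import Pool.Agent.Lib.MP_0775d3_lc.U.Ab
import Pool.Agent.Lib.MP_0775d3_lc.Solv.Induct
import Pool.Agent.Lib.MP_0775d3_lc.Sl2H.Peel

/-! Induction on the number of factors of `SL₂` type. -/

set_option linter.unusedSectionVars false

namespace MP0775d3.U

open Matrix MP0775d3.Kron MP0775d3.Sl2 MP0775d3.Sl2H

/-- PROOF. Induction on `r`, `r = 0` is `solv_class`. Step, for given `δ`: `γ₁, C₁` from the
induction hypothesis for `δ / 4`, `γ₂, C₂` from `peel (δ / 4)`; `κ = min (γ₁ / 2) (δ / 4)`. Let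
`G ≃* T × H` (`GBound.congr`), `|T| |H| ≤ N`. If `|T| ≤ N ^ κ`: `peel_small` and the induction
hypothesis for `H` at `N`: rank at most `|T| |H| C₁ N ^ (κ - γ₁)`, sparsity `C₁ N ^ (κ + δ / 4)`. If
`|T| > N ^ κ`: `AbBound H (8 |T|) (C₁ N ^ (-γ₁)) (C₁ 8 N ^ (δ / 4))` by the induction hypothesis at
`8 N` for the groups `E × H` (`InS.ab`; `|E × H| ≤ 8 |T| |H| ≤ 8 N`), then `peel`: rank at most
`C₂ |G| (N ^ (-γ₂ κ) + C₁ N ^ (-γ₁))`, sparsity at most `C₂ N ^ (δ / 4) C₁ 8 N ^ (δ / 4)`. -/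
theorem main_S (l : ℕ) (hl : 1 ≤ l) (r : ℕ) : ∀ (δ : ℝ), 0 < δ → δ ≤ 1 → ∃ γ : ℝ, 0 < γ ∧ γ ≤ 1 ∧
    ∃ C : ℝ, 1 ≤ C ∧ ∀ (N : ℝ), 1 ≤ N → ∀ (G : Type) [Group G] [Finite G], InS l r G →
      (Nat.card G : ℝ) ≤ N → GBound G (Nat.card G * (C * N ^ (-γ))) (C * N ^ δ) := by
  induction r with
  | zero =>
    intro δ hδ hδ1
    obtain ⟨γ, hγ, hγ1, C, hC, h⟩ := Solv.solv_class l δ hδ hδ1
    refine ⟨γ, hγ, hγ1, C, hC, ?_⟩
    intro N hN G _ _ hG hcard _ f hf
    exact h N hN G hG hcard f hf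
  | succ r ih =>
    intro δ hδ hδ1
    obtain ⟨γ₁, hγ₁, hγ₁1, C₁, hC₁, h₁⟩ := ih (δ / 4) (by linarith) (by linarith)
    obtain ⟨γ₂, hγ₂, hγ₂1, C₂, hC₂, h₂⟩ := peel (δ / 4) (by linarith) (by linarith)
    obtain ⟨κ, hκ⟩ : ∃ κ, κ = min (γ₁ / 2) (δ / 4) := ⟨_, rfl⟩
    have hκ0 : 0 < κ := by rw [hκ]; exact lt_min (by linarith) (by linarith)
    have hκ1 : κ ≤ γ₁ / 2 := by rw [hκ]; exact min_le_left _ _
    have hκ2 : κ ≤ δ / 4 := by rw [hκ]; exact min_le_right _ _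
    have hγκ : κ * γ₂ ≤ κ := mul_le_of_le_one_right hκ0.le hγ₂1
    have hCC : C₁ ≤ 8 * C₁ * C₂ := by nlinarith
    have hCC' : C₂ * (1 + C₁) ≤ 8 * C₁ * C₂ := by nlinarith
    refine ⟨κ * γ₂, mul_pos hκ0 hγ₂, by linarith, 8 * C₁ * C₂, by linarith, ?_⟩
    intro N hN G _ _ hG hcard
    obtain ⟨T, H, _, _, hT, hH, ⟨e⟩⟩ := hG
    have hfin : Finite (T × H) := Finite.of_equiv G e.toEquiv
    have hfT : Finite T := Finite.of_surjective (Prod.fst : T × H → T) Prod.fst_surjective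
    have hfH : Finite H := Finite.of_surjective (Prod.snd : T × H → H) Prod.snd_surjective
    have hcG : (Nat.card G : ℝ) = Nat.card T * Nat.card H := by
      rw [Nat.card_congr e.toEquiv, Nat.card_prod]
      push_cast
      ring
    have hT1 : (1 : ℝ) ≤ Nat.card T := by exact_mod_cast Nat.card_pos
    have hH1 : (1 : ℝ) ≤ Nat.card H := by exact_mod_cast Nat.card_pos
    have hN0 : (0 : ℝ) < N := by linarith
    rw [hcG] at hcard ⊢
    suffices hTH : ∀ (_ : Fintype (T × H)) (f : T × H → ℂ), IsClassFun f → RDec (groupMat f)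
        (Nat.card T * Nat.card H * (8 * C₁ * C₂ * N ^ (-(κ * γ₂)))) (8 * C₁ * C₂ * N ^ δ) by
      intro hGf
      exact GBound.congr e.symm (fun {i} f hf => hTH i f hf)
    intro hTHf f hf
    have hHN : (Nat.card H : ℝ) ≤ N := by nlinarith
    have hTN : (Nat.card T : ℝ) ≤ N := by nlinarith
    have hpow : ∀ {a b : ℝ}, a ≤ b → N ^ a ≤ N ^ b := fun hab => Real.rpow_le_rpow_of_exponent_le hN hab
    by_cases hTκ : (Nat.card T : ℝ) ≤ N ^ κ
    · have h := peel_small (T := T) (H := H) (ρ := C₁ * N ^ (-γ₁)) (τ := C₁ * N ^ (δ / 4))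
        (by positivity) (by positivity) (h₁ N hN H hH hHN) f hf
      refine h.mono ?_ ?_
      · have h3 : (Nat.card T : ℝ) * N ^ (-γ₁) ≤ N ^ (-(κ * γ₂)) := by
          calc (Nat.card T : ℝ) * N ^ (-γ₁) ≤ N ^ κ * N ^ (-γ₁) :=
                mul_le_mul_of_nonneg_right hTκ (by positivity)
            _ = N ^ (κ + -γ₁) := (Real.rpow_add hN0 _ _).symm
            _ ≤ N ^ (-(κ * γ₂)) := hpow (by linarith)
        calc (Nat.card T : ℝ) * Nat.card T * Nat.card H * (C₁ * N ^ (-γ₁))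
            = Nat.card T * Nat.card H * (C₁ * (Nat.card T * N ^ (-γ₁))) := by ring
          _ ≤ Nat.card T * Nat.card H * (8 * C₁ * C₂ * N ^ (-(κ * γ₂))) := by
              refine mul_le_mul_of_nonneg_left ?_ (by positivity)
              exact mul_le_mul hCC h3 (by positivity) (by linarith)
      · have h3 : (Nat.card T : ℝ) * N ^ (δ / 4) ≤ N ^ δ := by
          calc (Nat.card T : ℝ) * N ^ (δ / 4) ≤ N ^ κ * N ^ (δ / 4) :=
                mul_le_mul_of_nonneg_right hTκ (by positivity)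
            _ = N ^ (κ + δ / 4) := (Real.rpow_add hN0 _ _).symm
            _ ≤ N ^ δ := hpow (by linarith)
        calc (Nat.card T : ℝ) * (C₁ * N ^ (δ / 4)) = C₁ * (Nat.card T * N ^ (δ / 4)) := by ring
          _ ≤ 8 * C₁ * C₂ * N ^ δ := mul_le_mul hCC h3 (by positivity) (by linarith)
    · have hTκ' : N ^ κ ≤ (Nat.card T : ℝ) := (not_le.1 hTκ).le
      have hAb : AbBound H (8 * Nat.card T) (C₁ * (8 * N) ^ (-γ₁)) (C₁ * (8 * N) ^ (δ / 4)) := by
        intro E _ _ hE _ g hg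
        have h3 := h₁ (8 * N) (by linarith) (E × H) (InS.ab hl E H hH) (by
          rw [Nat.card_prod]
          push_cast
          calc (Nat.card E : ℝ) * Nat.card H ≤ 8 * Nat.card T * Nat.card H :=
                mul_le_mul_of_nonneg_right hE (by positivity)
            _ ≤ 8 * N := by rw [mul_assoc]; exact mul_le_mul_of_nonneg_left hcard (by norm_num))
          g hg
        rw [Nat.card_prod] at h3
        push_cast at h3
        exact h3
      have h := h₂ T hT H (C₁ * (8 * N) ^ (-γ₁)) (C₁ * (8 * N) ^ (δ / 4)) (by positivity)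
        (by positivity) hAb f hf
      refine h.mono ?_ ?_
      · have h3 : (Nat.card T : ℝ) ^ (-γ₂) ≤ N ^ (-(κ * γ₂)) := by
          calc (Nat.card T : ℝ) ^ (-γ₂) ≤ (N ^ κ) ^ (-γ₂) :=
                Real.rpow_le_rpow_of_nonpos (by positivity) hTκ' (by linarith)
            _ = N ^ (-(κ * γ₂)) := by rw [← Real.rpow_mul hN0.le, mul_neg]
        have h4 : (8 * N) ^ (-γ₁) ≤ N ^ (-(κ * γ₂)) := by
          calc (8 * N) ^ (-γ₁) ≤ N ^ (-γ₁) :=
                Real.rpow_le_rpow_of_nonpos hN0 (by linarith) (by linarith)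
            _ ≤ N ^ (-(κ * γ₂)) := hpow (by linarith)
        calc C₂ * (Nat.card T * Nat.card H * ((Nat.card T : ℝ) ^ (-γ₂) + C₁ * (8 * N) ^ (-γ₁)))
            ≤ C₂ * (Nat.card T * Nat.card H * (N ^ (-(κ * γ₂)) + C₁ * N ^ (-(κ * γ₂)))) := by
              gcongr
          _ = Nat.card T * Nat.card H * (C₂ * (1 + C₁) * N ^ (-(κ * γ₂))) := by ring
          _ ≤ Nat.card T * Nat.card H * (8 * C₁ * C₂ * N ^ (-(κ * γ₂))) := by
              gcongr
      · have h3 : (Nat.card T : ℝ) ^ (δ / 4) ≤ N ^ (δ / 4) :=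
          Real.rpow_le_rpow (by positivity) hTN (by linarith)
        have h4 : (8 * N) ^ (δ / 4) ≤ 8 * N ^ (δ / 4) := by
          rw [Real.mul_rpow (by norm_num) hN0.le]
          refine mul_le_mul_of_nonneg_right ?_ (by positivity)
          calc (8 : ℝ) ^ (δ / 4) ≤ 8 ^ (1 : ℝ) :=
                Real.rpow_le_rpow_of_exponent_le (by norm_num) (by linarith)
            _ = 8 := Real.rpow_one _
        have h5 : N ^ (δ / 4) * N ^ (δ / 4) ≤ N ^ δ := by
          rw [← Real.rpow_add hN0]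
          exact hpow (by linarith)
        calc C₂ * ((Nat.card T : ℝ) ^ (δ / 4) * (C₁ * (8 * N) ^ (δ / 4)))
            ≤ C₂ * (N ^ (δ / 4) * (C₁ * (8 * N ^ (δ / 4)))) := by gcongr
          _ = 8 * C₁ * C₂ * (N ^ (δ / 4) * N ^ (δ / 4)) := by ring
          _ ≤ 8 * C₁ * C₂ * N ^ δ := by gcongr

end MP0775d3.U
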